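import Pool.Agent.N956.MM.Law

/-!
# MP_bae357_pr, Q1: degree-one vertices do not prevent percolation of stable multi-matchings

If the law `ν` on `{2,3,...}` has a polynomial tail of exponent less than one, then the stable
multi-matching with degree law `p δ₁ + (1 - p) ν` has an infinite component for every `p < 1`, in
every dimension.  Reason: a point with more stubs than there are points in a ball around it is
willing to link to every point of the ball; such giants exist at all large scales, and any two of
them are linked.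
-/

set_option autoImplicit false

namespace Pool.Agent.Results.MP_bae357_pr.HeavyTailsPercolate

open MeasureTheory Pool.Agent.N956.MM

/-- **Answer to Q1: no.**  There are laws `ν` on `{2,3,...}` with `ν([n,∞)) ≥ c n^(-a)`, `c > 0`,
`a < 1`; and for every dimension `d ≥ 1`, every such `ν` and every `p` in `[0,1)`, almost surely the
marked Poisson configuration with degree law `p δ₁ + (1 - p) ν` has a stable multi-matching, and
every stable multi-matching of it has an infinite component. -/
theorem result :
    (∃ ν : Measure ℕ, IsProbabilityMeasure ν ∧ ν {n | 2 ≤ n} = 1 ∧ Heavy ν) ∧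
    ∀ d : ℕ, 1 ≤ d → ∀ ν : Measure ℕ, IsProbabilityMeasure ν → ν {n | 2 ≤ n} = 1 → Heavy ν →
      ∀ p : ℝ, 0 ≤ p → p < 1 →
      ∀ (Ω : Type) [MeasurableSpace Ω] (P : Measure Ω) [IsProbabilityMeasure P]
        (Q : Ω → Set (EuclideanSpace ℝ (Fin d))) (D : Ω → EuclideanSpace ℝ (Fin d) → ℕ),
        IsMarkedPoisson P (ENNReal.ofReal p • Measure.dirac 1 + ENNReal.ofReal (1 - p) • ν) Q D →
        ∀ᵐ ω ∂P, (∃ G, IsStableMultiMatching (Q ω) (D ω) G) ∧
          ∀ G, IsStableMultiMatching (Q ω) (D ω) G → HasInfiniteComponent G := by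
  refine ⟨⟨nu, inferInstance, ?_, nu_heavy⟩, ?_⟩
  · refine le_antisymm prob_le_one ?_
    rw [← nu_odd]
    exact measure_mono fun n hn => le_trans (by norm_num) hn.2
  · intro d hd ν hν _ hheavy p hp0 hp1 Ω _ P _ Q D h
    have := prob_mix (ν := ν) (μ₀ := Measure.dirac 1) hp0 hp1.le
    obtain ⟨v, hv, hvol⟩ := vol_ball d
    filter_upwards [main (heavy_mix (μ₀ := Measure.dirac 1) hheavy hp1) h 0 hv hd hvol] with ω hω
    exact ⟨hω.1, fun G hG => (hω.2 G hG).2⟩

end Pool.Agent.Results.MP_bae357_pr.HeavyTailsPercolate
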